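import Pool.Agent.H39.TO.Targets

/-!
MP_397744_co, row RFL: the generators of a polyhedron of class `{0, 1}` with odd faces act as
reflections on the vertices.
-/

set_option autoImplicit false

namespace Pool.Agent.H94.TOH

open Pool.Agent.H57.CP Pool.Agent.H39.TO

theorem mk_symm (x y : V4) : mk x y = mk y x := by unfold mk; ring

theorem mk_addl (x y z : V4) : mk (x + y) z = mk x z + mk y z := by
  unfold mk; simp only [Pi.add_apply]; ring

theorem mk_subl (x y z : V4) : mk (x - y) z = mk x z - mk y z := by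
  unfold mk; simp only [Pi.sub_apply]; ring

theorem mk_smull (r : ℝ) (x z : V4) : mk (r • x) z = r * mk x z := by
  unfold mk; simp only [Pi.smul_apply, smul_eq_mul]; ring

theorem mk_addr (x y z : V4) : mk z (x + y) = mk z x + mk z y := by
  unfold mk; simp only [Pi.add_apply]; ring

theorem mk_subr (x y z : V4) : mk z (x - y) = mk z x - mk z y := by
  unfold mk; simp only [Pi.sub_apply]; ring

theorem mk_smulr (r : ℝ) (x z : V4) : mk z (r • x) = r * mk z x := by
  unfold mk; simp only [Pi.smul_apply, smul_eq_mul]; ring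

theorem mk_zerol (z : V4) : mk 0 z = 0 := by
  unfold mk; simp

theorem mk_suml (s : Finset ℕ) (f : ℕ → V4) (z : V4) :
    mk (∑ k ∈ s, f k) z = ∑ k ∈ s, mk (f k) z := by
  classical
  induction s using Finset.induction_on with
  | empty => simp [mk_zerol]
  | insert a s ha ih => rw [Finset.sum_insert ha, Finset.sum_insert ha, mk_addl, ih]

theorem mk_nondeg (y : V4) (h : ∀ z, mk y z = 0) : y = 0 := by
  have h0 := h ![1, 0, 0, 0]
  have h1 := h ![0, 1, 0, 0]
  have h2 := h ![0, 0, 1, 0]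
  have h3 := h ![0, 0, 0, 1]
  simp [mk] at h0 h1 h2 h3
  ext i
  fin_cases i <;> simp <;> assumption

/-- a frame: three vectors and a normal vector -/
structure Fr (w s h u : V4) : Prop where
  intro ::
  ww : mk w w < 0
  sw : mk s w = 0
  hw : mk h w = 0
  ss : 0 < mk s s
  hs : ¬ ∃ κ : ℝ, h = κ • s
  uu : mk u u = -1
  uw : mk u w = 0
  us : mk u s = 0
  uh : mk u h = 0

theorem Fr.li {w s h u : V4} (F : Fr w s h u) : LinearIndependent ℝ ![w, s, h, u] := by
  rw [Fintype.linearIndependent_iff]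
  intro g hg
  simp only [Fin.sum_univ_four, Matrix.cons_val] at hg
  have h0 : g 0 = 0 := by
    have h1 := congrArg (fun z => mk z w) hg
    simp only [mk_addl, mk_smull, mk_zerol, F.sw, F.hw, F.uw] at h1
    have h2 : g 0 * mk w w = 0 := by linarith
    exact (mul_eq_zero.1 h2).resolve_right F.ww.ne
  have h3 : g 3 = 0 := by
    have h1 := congrArg (fun z => mk z u) hg
    simp only [mk_addl, mk_smull, mk_zerol, F.uu, mk_symm w u, F.uw, mk_symm s u, F.us,
      mk_symm h u, F.uh] at h1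
    linarith
  have h2 : g 2 = 0 := by
    by_contra hne
    apply F.hs
    refine ⟨-(g 1) / g 2, ?_⟩
    rw [h0, h3] at hg
    have h4 : g 2 • h = -(g 1 • s) := by
      rw [zero_smul, zero_smul, zero_add, add_zero] at hg
      rw [add_comm] at hg
      exact eq_neg_of_add_eq_zero_left hg
    have h5 : h = (g 2)⁻¹ • (g 2 • h) := by
      rw [smul_smul, inv_mul_cancel₀ hne, one_smul]
    rw [h5, h4, smul_neg, smul_smul, ← neg_smul]
    congr 1
    field_simp
  have h1 : g 1 = 0 := by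
    rw [h0, h3, h2] at hg
    have h4 := congrArg (fun z => mk z s) hg
    simp only [mk_addl, mk_smull, mk_zerol] at h4
    have h5 : g 1 * mk s s = 0 := by linarith
    exact (mul_eq_zero.1 h5).resolve_right F.ss.ne'
  intro i
  fin_cases i <;> assumption

theorem Fr.coords {w s h u : V4} (F : Fr w s h u) (x : V4) :
    ∃ α β γ δ : ℝ, x = α • w + β • s + γ • h + δ • u := by
  let B := basisOfLinearIndependentOfCardEqFinrank F.li (by simp)
  have h1 := B.sum_repr x
  simp only [Fin.sum_univ_four] at h1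
  refine ⟨B.repr x 0, B.repr x 1, B.repr x 2, B.repr x 3, ?_⟩
  conv_lhs => rw [← h1]
  simp [B]

theorem Fr.orth {w s h u : V4} (F : Fr w s h u) (x : V4) (hw : mk x w = 0) (hs : mk x s = 0)
    (hh : mk x h = 0) : ∃ δ : ℝ, x = δ • u := by
  obtain ⟨α, β, γ, δ, hx⟩ := F.coords x
  refine ⟨δ, ?_⟩
  have hy : x - δ • u = α • w + β • s + γ • h := by
    conv_lhs => rw [hx]
    abel
  have h1 : x - δ • u = 0 := by
    apply mk_nondeg
    intro z
    obtain ⟨α', β', γ', δ', hz⟩ := F.coords z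
    have e1 : mk (x - δ • u) w = 0 := by
      rw [mk_subl, mk_smull, hw, F.uw]; ring
    have e2 : mk (x - δ • u) s = 0 := by
      rw [mk_subl, mk_smull, hs, F.us]; ring
    have e3 : mk (x - δ • u) h = 0 := by
      rw [mk_subl, mk_smull, hh, F.uh]; ring
    have e4 : mk (x - δ • u) u = 0 := by
      rw [hy, mk_addl, mk_addl, mk_smull, mk_smull, mk_smull, mk_symm w u, F.uw, mk_symm s u,
        F.us, mk_symm h u, F.uh]
      ring
    rw [hz]
    simp only [mk_addr, mk_smulr, e1, e2, e3, e4]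
    ring
  exact sub_eq_zero.1 h1

/-- the orbit of `v` under a dihedral group -/
theorem orb_aux (V : Set H3) (a b : Equiv.Perm H3) (v : H3) (p : ℕ)
    (Va : ∀ x ∈ V, a x ∈ V) (Vb : ∀ x ∈ V, b x ∈ V) (aa : ∀ x ∈ V, a (a x) = x)
    (bb : ∀ x ∈ V, b (b x) = x) (hv : v ∈ V) (bv : b v = v) (hp : ((a * b) ^ p) v = v) :
    (∀ k : ℕ, ((a * b) ^ k) v ∈ V) ∧
    (∀ k ≤ p, b (((a * b) ^ k) v) = ((a * b) ^ (p - k)) v) ∧
    ∀ k ≤ p, a (((a * b) ^ k) v) = ((a * b) ^ (p + 1 - k)) v := by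
  have hsucc : ∀ k : ℕ, ((a * b) ^ (k + 1)) v = a (b (((a * b) ^ k) v)) := by
    intro k
    rw [pow_succ', Equiv.Perm.mul_apply, Equiv.Perm.mul_apply]
  have hV : ∀ k : ℕ, ((a * b) ^ k) v ∈ V := by
    intro k
    induction k with
    | zero => simpa using hv
    | succ k ih =>
      rw [hsucc]
      exact Va _ (Vb _ ih)
  have hb : ∀ k ≤ p, b (((a * b) ^ k) v) = ((a * b) ^ (p - k)) v := by
    intro k
    induction k with
    | zero =>
      intro _
      rw [Nat.sub_zero, hp, pow_zero, Equiv.Perm.one_apply, bv]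
    | succ k ih =>
      intro hk
      have h1 := ih (by omega)
      have h2 : p - k = (p - (k + 1)) + 1 := by omega
      rw [h2, hsucc] at h1
      rw [hsucc, h1, aa _ (Vb _ (hV _)), bb _ (hV _)]
  refine ⟨hV, hb, fun k hk => ?_⟩
  have h1 := hb k hk
  have h2 : p + 1 - k = (p - k) + 1 := by omega
  rw [h2, hsucc, ← h1, bb _ (hV _)]

theorem iso_mul {a b : Equiv.Perm H3} (ia : IsIso a) (ib : IsIso b) : IsIso (a * b) := by
  intro x y
  rw [Equiv.Perm.mul_apply, Equiv.Perm.mul_apply, ia, ib]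

theorem half (hPLN : T_PLN) (hCTR : T_CTR) (V : Set H3) (a b : Equiv.Perm H3) (v v1 : H3) (p : ℕ)
    (ia : IsIso a) (ib : IsIso b) (Va : ∀ x ∈ V, a x ∈ V) (Vb : ∀ x ∈ V, b x ∈ V)
    (aa : ∀ x ∈ V, a (a x) = x) (bb : ∀ x ∈ V, b (b x) = x) (hv : v ∈ V) (av : a v = v1)
    (bv : b v = v) (ne : v ≠ v1) (o1 : ∀ m : ℕ, ((a * b) ^ m) v = v ↔ p ∣ m) (hp : Odd p)
    (hp3 : 3 ≤ p) : ∃ (h : H3) (u : V4), a h = h ∧ (¬ ∃ κ : ℝ, h.1 = κ • (v.1 + v1.1)) ∧
      mk u u = -1 ∧ mk u v.1 = 0 ∧ mk u v1.1 = 0 ∧ mk u h.1 = 0 ∧ mk u (b v1).1 = 0 ∧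
      mk u (b h).1 = 0 ∧ b (b v1) = v1 ∧ b (b h) = h := by
  have hpp : ((a * b) ^ p) v = v := (o1 p).2 dvd_rfl
  obtain ⟨hV, hb, ha⟩ := orb_aux V a b v p Va Vb aa bb hv bv hpp
  obtain ⟨D, c, u, hD, hD1, -, -, hDc, hc, hcc, huu, -, -, hu⟩ :=
    hPLN (a * b) v p (iso_mul ia ib) hp hp3 o1
  obtain ⟨l, hl⟩ := hp
  have hv1 : v1 = ((a * b) ^ 1) v := by
    rw [pow_one, Equiv.Perm.mul_apply, bv, av]
  have hfix : a (((a * b) ^ (l + 1)) v) = ((a * b) ^ (l + 1)) v := by
    rw [ha (l + 1) (by omega)]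
    congr 2
    omega
  -- products with the centre
  have hper : ∀ k : ℕ, ((a * b) ^ p) (((a * b) ^ k) v) = ((a * b) ^ k) v := by
    intro k
    rw [← Equiv.Perm.mul_apply, ← pow_add, add_comm, pow_add, Equiv.Perm.mul_apply, hpp]
  have hck : ∀ k : ℕ, mk c (((a * b) ^ k) v).1 = mk c v.1 := by
    intro k
    induction k with
    | zero => rw [pow_zero, Equiv.Perm.one_apply]
    | succ k ih =>
      have h1 := hD1 _ (hper k)
      rw [pow_succ', Equiv.Perm.mul_apply, ← h1]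
      conv_lhs => rw [← hDc]
      rw [hD.1, ih]
  have hcv : 0 < mk c v.1 := by
    have h1 : mk c c = p * mk c v.1 := by
      conv_lhs => rw [mk_symm, hc]
      rw [mk_suml]
      have h2 : ∀ k ∈ Finset.range p, mk (((a * b) ^ k) v).1
          (∑ k ∈ Finset.range p, (((a * b) ^ k) v).1) = mk c v.1 := by
        intro k _
        rw [← hc, mk_symm, hck]
      rw [Finset.sum_congr rfl h2, Finset.sum_const, Finset.card_range, nsmul_eq_mul]
    rw [h1] at hcc
    by_contra hneg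
    push Not at hneg
    have h3 : (p : ℝ) * mk c v.1 ≤ 0 := mul_nonpos_of_nonneg_of_nonpos (Nat.cast_nonneg _) hneg
    linarith
  refine ⟨((a * b) ^ (l + 1)) v, u, hfix, ?_, huu, ?_, ?_, ?_, ?_, ?_, ?_, ?_⟩
  · rintro ⟨κ, hκ⟩
    have h1 := hck (l + 1)
    rw [hκ, mk_smulr, mk_addr] at h1
    have h2 := hck 1
    rw [← hv1] at h2
    rw [h2] at h1
    have h3 : κ = 1 / 2 := by
      have h4 : (2 * κ - 1) * mk c v.1 = 0 := by linarith
      have h5 := (mul_eq_zero.1 h4).resolve_right hcv.ne'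
      linarith
    have h6 : mk (((a * b) ^ (l + 1)) v).1 (((a * b) ^ (l + 1)) v).1 = 1 :=
      (((a * b) ^ (l + 1)) v).2.1
    rw [hκ, mk_smull, mk_smulr, mk_addl, mk_addr, mk_addr, h3, v.2.1, v1.2.1,
      mk_symm v1.1 v.1] at h6
    have h7 : ch v v1 = 1 := by
      change mk v.1 v1.1 = 1
      linarith
    exact ne ((hCTR v v1 v1).2.1 h7)
  · have := hu 0
    rw [pow_zero, Equiv.Perm.one_apply] at this
    rw [mk_symm]
    exact this
  · rw [hv1, mk_symm]
    exact hu 1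
  · rw [mk_symm]
    exact hu _
  · rw [hv1, hb 1 (by omega), mk_symm]
    exact hu _
  · rw [hb (l + 1) (by omega), mk_symm]
    exact hu _
  · exact bb _ (by rw [hv1]; exact hV 1)
  · exact bb _ (hV _)

theorem refl_apply (n x : V4) : refl n x = x + (2 * mk n x) • n := by
  ext i
  simp [Pool.Agent.H57.CP.refl]

theorem refl_orth (n x : V4) (h : mk n x = 0) : refl n x = x := by
  rw [refl_apply, h, mul_zero, zero_smul, add_zero]

/-- maps which agree on the frame agree on the orthogonal complement of the normal -/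
theorem Fr.agree {w s h u : V4} (F : Fr w s h u) (N : V4 →ₗ[ℝ] V4) (hw : N w = w) (hs : N s = s)
    (hh : N h = h) (x : V4) (hx : mk x u = 0) : N x = x := by
  obtain ⟨α, β, γ, δ, hc⟩ := F.coords x
  have hδ : δ = 0 := by
    rw [hc] at hx
    simp only [mk_addl, mk_smull, F.uu, mk_symm w u, F.uw, mk_symm s u, F.us,
      mk_symm h u, F.uh] at hx
    linarith
  rw [hc, hδ, map_add, map_add, map_add, map_smul, map_smul, map_smul, hw, hs, hh, zero_smul,
    map_zero]

theorem Fr.agree' {w s h u : V4} (F : Fr w s h u) (N : V4 →ₗ[ℝ] V4) (hw : N w = w) (hs : N s = s)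
    (hh : N h = h) (hu : N u = u) (x : V4) : N x = x := by
  obtain ⟨α, β, γ, δ, hc⟩ := F.coords x
  rw [hc, map_add, map_add, map_add, map_smul, map_smul, map_smul, map_smul, hw, hs, hh, hu]

/-- a Lorentz map which maps the normal to the orthogonal complement of the frame -/
theorem Fr.normal {w s h u : V4} (F : Fr w s h u) (A : V4 →ₗ[ℝ] V4)
    (hA : ∀ x y, mk (A x) (A y) = mk x y) (hw : mk (A u) w = 0) (hs : mk (A u) s = 0)
    (hh : mk (A u) h = 0) : A u = u ∨ A u = -u := by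
  obtain ⟨δ, hδ⟩ := F.orth (A u) hw hs hh
  have h1 := hA u u
  rw [hδ, mk_smull, mk_smulr, F.uu] at h1
  have h2 : (δ - 1) * (δ + 1) = 0 := by linarith
  rcases mul_eq_zero.1 h2 with h3 | h3
  · left
    rw [hδ, show δ = 1 by linarith, one_smul]
  · right
    rw [hδ, show δ = -1 by linarith, neg_smul, one_smul]

/-- the normal is preserved by an isometry which permutes points in its complement -/
theorem normal_iso {v v1 h : H3} {u : V4} (F : Fr (v.1 - v1.1) (v.1 + v1.1) h.1 u)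
    (A : V4 →ₗ[ℝ] V4) (a : Equiv.Perm H3) (hA : Lor A) (ha : Ext A a) (y y1 yh : H3)
    (e : a y = v) (e1 : a y1 = v1) (eh : a yh = h) (g : mk u y.1 = 0) (g1 : mk u y1.1 = 0)
    (gh : mk u yh.1 = 0) : A u = u ∨ A u = -u := by
  have k : mk (A u) v.1 = 0 := by rw [← e, ← ha y, hA.1, g]
  have k1 : mk (A u) v1.1 = 0 := by rw [← e1, ← ha y1, hA.1, g1]
  have kh : mk (A u) h.1 = 0 := by rw [← eh, ← ha yh, hA.1, gh]
  refine F.normal A hA.1 ?_ ?_ kh
  · rw [mk_subr, k, k1, sub_zero]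
  · rw [mk_addr, k, k1, add_zero]

theorem inv_iff (A : V4 →ₗ[ℝ] V4) (a : Equiv.Perm H3) (hA : Lor A) (ha : Ext A a) (u : V4)
    (hu : A u = u ∨ A u = -u) (y : H3) : mk (a y).1 u = 0 ↔ mk y.1 u = 0 := by
  have h1 := hA.1 y.1 u
  rw [ha y] at h1
  rcases hu with h | h
  · rw [h] at h1
    rw [h1]
  · rw [h] at h1
    have h2 : mk (a y).1 (-u) = -mk (a y).1 u := by
      have := mk_smulr (-1) u (a y).1
      rw [neg_one_smul] at this
      rw [this]; ring
    rw [h2] at h1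
    rw [← h1]
    constructor
    · intro h3; rw [h3]; ring
    · intro h3; linarith

theorem pf_RFL (hPLN : T_PLN) (hEXT : Pool.Agent.H57.CP.T_EXT) (hLOR : T_LOR) (hCTR : T_CTR) :
    T_RFL := by
  intro K v v1 f f' a b c p q _ hD hp hp3
  have hv : v ∈ K.V := by
    rw [hD.eV]
    exact ⟨1, one_mem _, rfl⟩
  have Va : ∀ x ∈ K.V, a x ∈ K.V := fun x hx => (hD.sa.v x).2 hx
  have Vb : ∀ x ∈ K.V, b x ∈ K.V := fun x hx => (hD.sb.v x).2 hx
  have Vc : ∀ x ∈ K.V, c x ∈ K.V := fun x hx => (hD.sc.v x).2 hx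
  obtain ⟨h, u, ah, hκ, huu, huv, huv1, huh, hubv1, hubh, hbb1, hbbh⟩ :=
    half hPLN hCTR K.V a b v v1 p hD.sa.iso hD.sb.iso Va Vb hD.aa hD.bb hv hD.av hD.bv hD.ne
      hD.o1 hp hp3
  obtain ⟨h', u', ah', hκ', huu', huv', huv1', huh', hucv1', huch', hcc1, hcch⟩ :=
    half hPLN hCTR K.V a c v v1 p hD.sa.iso hD.sc.iso Va Vc hD.aa hD.cc hv hD.av hD.cv hD.ne
      hD.o2 hp hp3
  obtain ⟨A, hA, hAe⟩ := hEXT a hD.sa.iso
  obtain ⟨B, hB, hBe⟩ := hEXT b hD.sb.iso
  obtain ⟨C, hC, hCe⟩ := hEXT c hD.sc.iso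
  have hL : 1 < ch v v1 := by
    rcases (hCTR v v1 v1).1.lt_or_eq with h1 | h1
    · exact h1
    · exact absurd ((hCTR v v1 v1).2.1 h1.symm) hD.ne
  set L := ch v v1 with hLd
  have hLm : mk v.1 v1.1 = L := rfl
  have hww : mk (v.1 - v1.1) (v.1 - v1.1) = 2 - 2 * L := by
    rw [mk_subl, mk_subr, mk_subr, v.2.1, v1.2.1, mk_symm v1.1 v.1, hLm]
    ring
  have hss : mk (v.1 + v1.1) (v.1 + v1.1) = 2 + 2 * L := by
    rw [mk_addl, mk_addr, mk_addr, v.2.1, v1.2.1, mk_symm v1.1 v.1, hLm]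
    ring
  have hsw : mk (v.1 + v1.1) (v.1 - v1.1) = 0 := by
    rw [mk_addl, mk_subr, mk_subr, v.2.1, v1.2.1, mk_symm v1.1 v.1, hLm]
    ring
  have hxw : ∀ x : H3, a x = x → mk x.1 (v.1 - v1.1) = 0 := by
    intro x hx
    have h1 := hD.sa.iso x v
    rw [hx, hD.av] at h1
    have h2 : mk x.1 v1.1 = mk x.1 v.1 := h1
    rw [mk_subr, h2, sub_self]
  have F : Fr (v.1 - v1.1) (v.1 + v1.1) h.1 u :=
    ⟨by rw [hww]; linarith, hsw, hxw h ah, by rw [hss]; linarith, hκ, huu,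
      by rw [mk_subr, huv, huv1, sub_zero], by rw [mk_addr, huv, huv1, add_zero], huh⟩
  have F' : Fr (v.1 - v1.1) (v.1 + v1.1) h'.1 u' :=
    ⟨by rw [hww]; linarith, hsw, hxw h' ah', by rw [hss]; linarith, hκ', huu',
      by rw [mk_subr, huv', huv1', sub_zero], by rw [mk_addr, huv', huv1', add_zero], huh'⟩
  -- the unit normal
  set r : ℝ := 1 / Real.sqrt (2 * L - 2) with hr
  have hs0 : 0 < Real.sqrt (2 * L - 2) := Real.sqrt_pos.2 (by linarith)
  have hr0 : 0 < r := by positivity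
  have hr2 : r * r * (2 - 2 * L) = -1 := by
    have h1 : Real.sqrt (2 * L - 2) * Real.sqrt (2 * L - 2) = 2 * L - 2 :=
      Real.mul_self_sqrt (by linarith)
    have h2 : r * Real.sqrt (2 * L - 2) = 1 := by
      rw [hr]
      exact one_div_mul_cancel hs0.ne'
    have h3 : r * r * (Real.sqrt (2 * L - 2) * Real.sqrt (2 * L - 2)) = 1 := by
      have : r * r * (Real.sqrt (2 * L - 2) * Real.sqrt (2 * L - 2)) =
          (r * Real.sqrt (2 * L - 2)) * (r * Real.sqrt (2 * L - 2)) := by ring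
      rw [this, h2, one_mul]
    rw [h1] at h3
    linarith
  set n0 : V4 := r • (v.1 - v1.1) with hn0
  have hnn : mk n0 n0 = -1 := by
    rw [hn0, mk_smull, mk_smulr, hww]
    linarith
  refine ⟨n0, hnn, ⟨r, hr0, rfl⟩, ?_⟩
  obtain ⟨hRL, hRR⟩ := hLOR.2.2 n0 hnn
  have hRR' : ∀ x : V4, refl n0 (refl n0 x) = x := by
    intro x
    have := congrArg (fun T : V4 →ₗ[ℝ] V4 => T x) hRR
    exact this
  have hRw : refl n0 (v.1 - v1.1) = -(v.1 - v1.1) := by
    rw [refl_apply, hn0, mk_smull, hww, smul_smul]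
    have h1 : 2 * (r * (2 - 2 * L)) * r = -2 := by linarith
    rw [h1, neg_smul, two_smul]
    abel
  have hAw : A (v.1 - v1.1) = -(v.1 - v1.1) := by
    rw [map_sub, hAe v, hAe v1, hD.av, hD.av1]
    abel
  have hAs : A (v.1 + v1.1) = v.1 + v1.1 := by
    rw [map_add, hAe v, hAe v1, hD.av, hD.av1]
    abel
  have hRo : ∀ x : V4, mk x (v.1 - v1.1) = 0 → refl n0 x = x := by
    intro x hx
    apply refl_orth
    rw [hn0, mk_smull, mk_symm, hx, mul_zero]
  -- the map `N`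
  set N : V4 →ₗ[ℝ] V4 := (Pool.Agent.H57.CP.refl n0).comp A with hN
  have hNa : ∀ x : V4, N x = refl n0 (A x) := fun x => rfl
  have hNw : N (v.1 - v1.1) = v.1 - v1.1 := by
    rw [hNa, hAw, map_neg, hRw, neg_neg]
  have hNs : N (v.1 + v1.1) = v.1 + v1.1 := by
    rw [hNa, hAs, hRo _ hsw]
  have hNh : N h.1 = h.1 := by
    rw [hNa, hAe h, ah, hRo _ (hxw h ah)]
  have hNh' : N h'.1 = h'.1 := by
    rw [hNa, hAe h', ah', hRo _ (hxw h' ah')]
  have hNL : ∀ x y, mk (N x) (N y) = mk x y := by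
    intro x y
    rw [hNa, hNa, hRL.1, hA.1]
  have hfin : ∀ x : H3, N x.1 = x.1 → refl n0 x.1 = (a x).1 := by
    intro x hx
    rw [hNa, hAe x] at hx
    rw [← hRR' ((a x).1), hx]
  have hNu : N u = u ∨ N u = -u := by
    refine F.normal N hNL ?_ ?_ ?_
    · rw [← hNw, hNL, F.uw]
    · rw [← hNs, hNL, F.us]
    · rw [← hNh, hNL, F.uh]
  rcases hNu with hNu | hNu
  · intro x _
    exact hfin x (F.agree' N hNw hNs hNh hNu x.1)
  -- the planar case
  have huh2 : mk u h'.1 = 0 := by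
    have h1 := hNL u h'.1
    rw [hNu, hNh'] at h1
    have h2 : mk (-u) h'.1 = -mk u h'.1 := by
      have := mk_smull (-1) u h'.1
      rw [neg_one_smul] at this
      rw [this]; ring
    rw [h2] at h1
    linarith
  obtain ⟨δ, hδ⟩ := F'.orth u F.uw F.us huh2
  have hu' : u = u' ∨ u = -u' := by
    have h1 := huu
    rw [hδ, mk_smull, mk_smulr, huu'] at h1
    have h2 : (δ - 1) * (δ + 1) = 0 := by linarith
    rcases mul_eq_zero.1 h2 with h3 | h3
    · left
      rw [hδ, show δ = 1 by linarith, one_smul]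
    · right
      rw [hδ, show δ = -1 by linarith, neg_smul, one_smul]
  have hAu : A u = u ∨ A u = -u :=
    normal_iso F A a hA hAe v1 v h hD.av1 hD.av ah huv1 huv huh
  have hBu : B u = u ∨ B u = -u :=
    normal_iso F B b hB hBe v (b v1) (b h) hD.bv hbb1 hbbh huv hubv1 hubh
  have hCu' : C u' = u' ∨ C u' = -u' :=
    normal_iso F' C c hC hCe v (c v1) (c h') hD.cv hcc1 hcch huv' hucv1' huch'
  have hCu : C u = u ∨ C u = -u := by
    rcases hu' with e | e
    · rw [e]; exact hCu'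
    · rw [e, map_neg]
      rcases hCu' with e1 | e1
      · left; rw [e1]
      · right; rw [e1]
  have hG : ∀ g ∈ G3 a b c, ∀ y : H3, mk (g y).1 u = 0 ↔ mk y.1 u = 0 := by
    intro g hg
    refine Subgroup.closure_induction (p := fun g _ => ∀ y : H3, mk (g y).1 u = 0 ↔ mk y.1 u = 0)
      ?_ ?_ ?_ ?_ hg
    · intro x hx
      rcases hx with rfl | rfl | rfl
      · exact inv_iff A _ hA hAe u hAu
      · exact inv_iff B _ hB hBe u hBu
      · exact inv_iff C _ hC hCe u hCu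
    · intro y
      rfl
    · intro x y _ _ hx hy z
      rw [Equiv.Perm.mul_apply, hx, hy]
    · intro x _ hx z
      have h1 := hx (x⁻¹ z)
      rw [← Equiv.Perm.mul_apply, mul_inv_cancel, Equiv.Perm.one_apply] at h1
      exact h1.symm
  intro x hx
  rw [hD.eV] at hx
  obtain ⟨g, hg, rfl⟩ := hx
  apply hfin
  refine F.agree N hNw hNs hNh _ ?_
  rw [hG g hg v, mk_symm]
  exact huv

end Pool.Agent.H94.TOH
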