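import Pool.Agent.H39.TO.Targets

/-!
MP_397744_co, row SPH: the spherical case of the classification of the reflection groups.
-/

set_option autoImplicit false

namespace Pool.Agent.H94.TOH

open Pool.Agent.H57.CP Pool.Agent.H39.TO

theorem c2_five : c2 5 = (Real.sqrt 5 - 1) / 4 := by
  unfold c2
  have h1 : 2 * Real.pi / ((5 : ℕ) : ℝ) = 2 * (Real.pi / 5) := by push_cast; ring
  rw [h1, Real.cos_two_mul, Real.cos_pi_div_five]
  have h2 : Real.sqrt 5 ^ 2 = 5 := Real.sq_sqrt (by norm_num)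
  linear_combination (1 / 8 : ℝ) * h2

theorem c2_five_eq : 4 * (c2 5) ^ 2 + 2 * c2 5 = 1 := by
  rw [c2_five]
  have h2 : Real.sqrt 5 ^ 2 = 5 := Real.sq_sqrt (by norm_num)
  linear_combination (1 / 4 : ℝ) * h2

theorem c2_five_bounds : 3 / 10 < c2 5 ∧ c2 5 < 31 / 100 := by
  rw [c2_five]
  have h2 : Real.sqrt 5 ^ 2 = 5 := Real.sq_sqrt (by norm_num)
  have h0 : 0 ≤ Real.sqrt 5 := Real.sqrt_nonneg 5
  constructor
  · by_contra h
    push Not at h
    nlinarith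
  · by_contra h
    push Not at h
    nlinarith

theorem c2_large {p : ℕ} (hp : 6 ≤ p) : 1 / 2 ≤ c2 p := by
  unfold c2
  have hp' : (6 : ℝ) ≤ (p : ℝ) := by exact_mod_cast hp
  have h0 : (0 : ℝ) < (p : ℝ) := by linarith
  have h1 : 2 * Real.pi / (p : ℝ) ≤ Real.pi / 3 := by
    rw [div_le_div_iff₀ h0 (by norm_num)]
    nlinarith [Real.pi_pos]
  rw [← Real.cos_pi_div_three]
  refine Real.cos_le_cos_of_nonneg_of_le_pi ?_ ?_ h1
  · positivity
  · linarith [Real.pi_pos]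

theorem c2_lt_one {p : ℕ} (hp : 5 ≤ p) : c2 p < 1 := by
  unfold c2
  have hp' : (5 : ℝ) ≤ (p : ℝ) := by exact_mod_cast hp
  have h0 : (0 : ℝ) < (p : ℝ) := by linarith
  have h2 : 0 < 2 * Real.pi / (p : ℝ) := by positivity
  have h1 : 2 * Real.pi / (p : ℝ) < Real.pi := by
    rw [div_lt_iff₀ h0]
    nlinarith [Real.pi_pos]
  rw [← Real.cos_zero]
  exact Real.cos_lt_cos_of_nonneg_of_le_pi le_rfl h1.le h2

theorem pf_SPH (hMDS : T_MDS) (hSPA : T_SPA) (hSPB : T_SPB) : T_SPH := by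
  intro p n0 t t' _ hp5 hT hC0 hC1
  set C := CC p t t' with hCdef
  have hp3 : 3 ≤ p := by omega
  have hTM := hMDS p n0 t t' hp3 hT hC0 hC1
  rw [← hCdef] at hTM
  obtain ⟨hfin, _, he2, haS, hprod⟩ := hSPA p C hp3 hC0 hC1 hTM
  have hB := hSPB p C hp3 hC0 hC1 hTM
  set Q : Set ℝ := {q | q < 1 ∧ ∃ x ∈ PS p C, ∃ y ∈ PS p C, q = -mk x y} with hQ
  have hQfin : Q.Finite := by
    have h1 : ((fun z : V4 × V4 => -mk z.1 z.2) '' (PS p C ×ˢ PS p C)).Finite :=
      (hfin.prod hfin).image _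
    refine h1.subset ?_
    rintro q ⟨_, x, hx, y, hy, rfl⟩
    exact ⟨(x, y), ⟨hx, hy⟩, rfl⟩
  have hCQ : C ∈ Q := ⟨hC1, e2, he2, aS C, haS, hprod.symm⟩
  obtain ⟨M, hMQ, hMmax⟩ := hQfin.exists_maximalFor id Q ⟨C, hCQ⟩
  have hmax : ∀ q ∈ Q, q ≤ M := by
    intro q hq
    by_contra h
    push Not at h
    have := hMmax hq h.le
    simp only [id] at this
    linarith
  have hCM : C ≤ M := hmax C hCQ
  have hM1 : M < 1 := hMQ.1
  have hM0 : 0 ≤ M := hC0.trans hCM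
  set c := c2 p with hc
  have hc1 : c < 1 := c2_lt_one hp5
  obtain ⟨_, x, hx, y, hy, hMxy⟩ := hMQ
  obtain ⟨⟨x1, hx1, y1, hy1, h1⟩, ⟨x2, hx2, y2, hy2, h2⟩⟩ := hB x hx y hy
  rw [← hMxy] at h1 h2
  -- the first product
  have k1 : c + (1 - c) * M ^ 2 ≤ M := by
    refine hmax _ ⟨?_, x1, hx1, y1, hy1, h1.symm⟩
    have a1 : M ^ 2 < 1 := by nlinarith
    have a2 : 0 < (1 - c) * (1 - M ^ 2) := mul_pos (by linarith) (by linarith)
    nlinarith
  have k2 : c ≤ (1 - c) * M := by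
    by_contra h
    push Not at h
    nlinarith
  have k3 : c < 1 / 2 := by nlinarith
  have hpe : p = 5 := by
    by_contra h
    have h6 : 6 ≤ p := by omega
    have := c2_large h6
    rw [← hc] at this
    linarith
  refine ⟨hpe, ?_⟩
  have hc5 : 4 * c ^ 2 + 2 * c = 1 := by
    rw [hc, hpe]; exact c2_five_eq
  obtain ⟨hb1, hb2⟩ : 3 / 10 < c ∧ c < 31 / 100 := by
    rw [hc, hpe]; exact c2_five_bounds
  -- the second product
  have k4 : (1 - c) * M = c := by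
    rcases k2.lt_or_eq with h | h
    · exfalso
      have r0 : 0 < (1 - c) * M - c := by linarith
      have r1 : (1 - c) * M - c < 1 := by nlinarith
      have r2 : ((1 - c) * M - c) ^ 2 < 1 := by nlinarith
      have r3 : 0 < ((1 - c) * M - c) ^ 2 := by positivity
      have h3 : 1 + (M - 1) * ((1 - c) * M - c) ^ 2 ≤ M := by
        refine hmax _ ⟨?_, x2, hx2, y2, hy2, h2.symm⟩
        nlinarith
      nlinarith
    · exact h.symm
  have hCe : C = M := by
    by_contra hne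
    have hlt : C < M := lt_of_le_of_ne hCM hne
    obtain ⟨_, ⟨x3, hx3, y3, hy3, h3⟩⟩ := hB e2 he2 (aS C) haS
    rw [hprod] at h3
    have r0 : (1 - c) * C - c < 0 := by nlinarith
    have r1 : -c ≤ (1 - c) * C - c := by nlinarith
    have r3 : 0 < ((1 - c) * C - c) ^ 2 := by
      have : (1 - c) * C - c ≠ 0 := r0.ne
      positivity
    have r2 : ((1 - c) * C - c) ^ 2 ≤ c ^ 2 := by nlinarith
    have h4 : 1 + (C - 1) * ((1 - c) * C - c) ^ 2 ≤ M := by
      refine hmax _ ⟨?_, x3, hx3, y3, hy3, h3.symm⟩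
      nlinarith
    have r4 : 1 - c ^ 2 ≤ 1 + (C - 1) * ((1 - c) * C - c) ^ 2 := by nlinarith
    have r5 : M < 1 / 2 := by
      by_contra h
      push Not at h
      nlinarith
    nlinarith
  rw [hCe]
  have h5 : (1 - c) ^ 2 = 5 * c ^ 2 := by linear_combination -hc5
  have h6 : (1 - c) ^ 2 * (5 * M ^ 2) = (1 - c) ^ 2 * 1 := by
    have : (1 - c) ^ 2 * (5 * M ^ 2) = 5 * ((1 - c) * M) ^ 2 := by ring
    rw [this, k4, mul_one, h5]
  have h7 : (1 - c) ^ 2 ≠ 0 := by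
    have : 0 < 1 - c := by linarith
    positivity
  exact mul_left_cancel₀ h7 h6

end Pool.Agent.H94.TOH
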